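import Mathlib
import Pool.Agent.Lib.MP_251106_co.Main

set_option autoImplicit false

/-!
# The first halves of the two sequences are non-decreasing

For all `n ≥ 3` and all `k` with `2k < n`: `(n - k) a_k ≤ k a_{k+1}` and `(n - k) b_k ≤ k b_{k+1}`; in
particular `a_k ≤ a_{k+1}` and `b_k ≤ b_{k+1}`.

The inequality holds for the numbers of non-trivial common partitions of every pair of trees `T`, `F`.
Root `T` at a leaf. From a common partition with `k` classes split off a leaf `x` of a class `C` with at
least three elements such that the path from `x` to the root meets the subtree spanned by the rest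
of `C`; at most one leaf of `C` is not of this form. The leaf `x` determines `C`: if the result also
arises from a class `C'`, then the subtree spanned by `C` or by `C'` would meet the other one
on the path from `x` to the root. So every common partition with `k + 1` classes arises at most
once for each of its classes with one element, and a weighted double counting gives the
inequality.
-/

namespace Pool.Agent.Lib.MP_251106_co.Shelf.FirstHalf

open Pool.Agent.Lib.MP_251106_co

theorem result (n : ℕ) (hn : 3 ≤ n) (k : ℕ) (hk1 : 1 ≤ k) (hk : 2 * k < n) :
    (0 ≤ a n k ∧ a n k ≤ a n (k + 1) ∧ ((n : ℤ) - k) * a n k ≤ k * a n (k + 1)) ∧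
    (0 ≤ b n k ∧ b n k ≤ b n (k + 1) ∧ ((n : ℤ) - k) * b n k ≤ k * b n (k + 1)) := by
  obtain ⟨T, hT⟩ := exists_caterpillar hn
  have h1 := (all_main hn (fun _ => True) ⟨T, trivial⟩).1 k hk1 hk
  have h2 := (all_main hn PhyloTree.IsCaterpillar ⟨T, hT⟩).1 k hk1 hk
  simp only [← a_eq_val] at h1
  simp only [← b_eq_val] at h2
  exact ⟨h1, h2⟩

end Pool.Agent.Lib.MP_251106_co.Shelf.FirstHalf
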