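import Mathlib
import Pool.Agent.Lib.MP_251106_co.Main

set_option autoImplicit false

/-!
# The last `c n^(1/11)` terms of the two sequences are strictly decreasing

If `k ≤ n - 2` and `2^30 (n - k)^11 ≤ n`, then `a_k > a_{k+1}`, in fact
`n^2 a_{k+1} ≤ 2^66 (n - k)^15 a_k`, and the same for `b`.

The inequality holds for the numbers of non-trivial common partitions of every pair of trees. For a
common partition with `k + 1` classes a cell of at least `n / (2 (n - k)^2)` one-element classes is
blocked by at most two classes, one in each tree. Dissolve these two classes and join pairs inside of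
the cell, one more pair than the number of classes gained by dissolving. There are many ways to
do this, by recursive bisection of the cell in both trees, and few ways to undo it.
-/

namespace Pool.Agent.Lib.MP_251106_co.Shelf.LastPart

open Pool.Agent.Lib.MP_251106_co

theorem result (n k : ℕ) (hn : 3 ≤ n) (hk : k ≤ n - 2) (hnk : 2 ^ 30 * (n - k) ^ 11 ≤ n) :
    (0 < a n k ∧ a n (k + 1) < a n k ∧
      (n : ℤ) ^ 2 * a n (k + 1) ≤ 2 ^ 66 * ((n : ℤ) - k) ^ 15 * a n k) ∧
    (0 < b n k ∧ b n (k + 1) < b n k ∧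
      (n : ℤ) ^ 2 * b n (k + 1) ≤ 2 ^ 66 * ((n : ℤ) - k) ^ 15 * b n k) := by
  obtain ⟨T, hT⟩ := exists_caterpillar hn
  have hk2 : k + 2 ≤ n := by omega
  have hbig : 4 * (n - k) + 12 ≤ n := by
    have h1 : n - k ≤ (n - k) ^ 11 := Nat.le_self_pow (by norm_num) _
    omega
  obtain ⟨-, p1, q1⟩ := all_main hn (fun _ => True) ⟨T, trivial⟩
  obtain ⟨-, p2, q2⟩ := all_main hn PhyloTree.IsCaterpillar ⟨T, hT⟩
  have h1 := q1 k hk2 hnk
  have h2 := q2 k hk2 hnk
  have h3 := p1 (by omega) k (by omega) hk2
  have h4 := p2 (by omega) k (by omega) hk2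
  simp only [← a_eq_val] at h1 h3
  simp only [← b_eq_val] at h2 h4
  exact ⟨⟨h3, h1.1, h1.2.1⟩, ⟨h4, h2.1, h2.2.1⟩⟩

end Pool.Agent.Lib.MP_251106_co.Shelf.LastPart
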