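import Mathlib
import Pool.Agent.Lib.MP_251106_co.Main

set_option autoImplicit false

/-!
# Log-concavity up to a factor which is polynomial in `n - k`

If `k ≤ n - 2` and `2^30 (n - k)^11 ≤ n`, then `a_{k-1} a_{k+1} ≤ 2^66 (n - k)^15 a_k^2`, and the same
for `b`; the factor does not depend on `n` for fixed `n - k`.
-/

namespace Pool.Agent.Lib.MP_251106_co.Shelf.NearLogConcave

open Pool.Agent.Lib.MP_251106_co

theorem result (n k : ℕ) (hn : 3 ≤ n) (hk : k ≤ n - 2) (hnk : 2 ^ 30 * (n - k) ^ 11 ≤ n) :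
    a n (k - 1) * a n (k + 1) ≤ 2 ^ 66 * ((n : ℤ) - k) ^ 15 * a n k ^ 2 ∧
    b n (k - 1) * b n (k + 1) ≤ 2 ^ 66 * ((n : ℤ) - k) ^ 15 * b n k ^ 2 := by
  obtain ⟨T, hT⟩ := exists_caterpillar hn
  have hk2 : k + 2 ≤ n := by omega
  have h1 := (all_main hn (fun _ => True) ⟨T, trivial⟩).2.2 k hk2 hnk
  have h2 := (all_main hn PhyloTree.IsCaterpillar ⟨T, hT⟩).2.2 k hk2 hnk
  simp only [← a_eq_val] at h1
  simp only [← b_eq_val] at h2
  exact ⟨h1.2.2, h2.2.2⟩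

end Pool.Agent.Lib.MP_251106_co.Shelf.NearLogConcave
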