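import Mathlib
import Pool.Agent.Lib.MP_251106_co.Main

set_option autoImplicit false

/-!
# The supports of the two sequences are intervals

`a_k > 0` implies `a_{k+1} > 0` for `k ≤ n - 3`, and `a_k > 0` for `n ≥ 12` and
`n / 2 + 2 ≤ k ≤ n - 2`; the same for `b`. So there are no zeros between positive terms, and every pair
of phylogenetic trees with `n ≥ 12` leaves has a non-trivial common partition with exactly `k` classes
for every `k` from `n / 2 + 2` to `n - 2`.
-/

namespace Pool.Agent.Lib.MP_251106_co.Shelf.Support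

open Pool.Agent.Lib.MP_251106_co

theorem result (n : ℕ) (hn : 3 ≤ n) :
    (∀ k : ℕ, 1 ≤ k → k + 3 ≤ n →
      (0 < a n k → 0 < a n (k + 1)) ∧ (0 < b n k → 0 < b n (k + 1))) ∧
    (12 ≤ n → ∀ k : ℕ, n + 4 ≤ 2 * k → k ≤ n - 2 → 0 < a n k ∧ 0 < b n k) := by
  obtain ⟨T, hT⟩ := exists_caterpillar hn
  have x0 : Fin n := ⟨0, by omega⟩
  refine ⟨?_, ?_⟩
  · intro k hk1 hk
    have key : ∀ Pr : PhyloTree n → Prop, (∃ T, Pr T) → 0 < val Pr k → 0 < val Pr (k + 1) := by
      intro Pr hex h0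
      have h1 := val_growth x0 Pr hex (by omega : 2 ≤ k + 1) (by omega : k + 1 + 2 ≤ n)
      rw [Nat.add_sub_cancel] at h1
      have h2 := h0.trans_le h1
      by_contra hcon
      have h3 : (n : ℤ) ^ 2 * val Pr (k + 1) ≤ 0 :=
        mul_nonpos_of_nonneg_of_nonpos (by positivity) (not_lt.1 hcon)
      linarith
    rw [a_eq_val, a_eq_val, b_eq_val, b_eq_val]
    exact ⟨key _ ⟨T, trivial⟩, key _ ⟨T, hT⟩⟩
  · intro h12 k h1 h2
    have h3 := (all_main hn (fun _ => True) ⟨T, trivial⟩).2.1 h12 k h1 (by omega)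
    have h4 := (all_main hn PhyloTree.IsCaterpillar ⟨T, hT⟩).2.1 h12 k h1 (by omega)
    simp only [← a_eq_val] at h3
    simp only [← b_eq_val] at h4
    exact ⟨h3, h4⟩

end Pool.Agent.Lib.MP_251106_co.Shelf.Support
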